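import Pool.Agent.H34.TAM.Stmts

/-!
# TAM, row CDE: the chain rule for cyclic gradients
-/

set_option autoImplicit false

noncomputable section

namespace Pool.TAM

open Pool.CGR Pool.CGS

namespace CDE55

/-- pairing of a cyclic gradient -/
theorem cpt {m : ℕ} {A : Type} [Ring A] [Algebra ℂ A] (τ : A →ₗ[ℂ] ℂ)
    (hτ : ∀ a b, τ (a * b) = τ (b * a)) (x : Fin m → A) (k : Fin m) (P : List (Fin m) →₀ ℂ) (a : A) :
    τ (cp x k P * a) = P.sum fun w r => r * τ (dv x k a w) := by
  unfold cp
  rw [Finsupp.sum_mul, map_finsuppSum]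
  refine Finsupp.sum_congr fun w _ => ?_
  rw [smul_mul_assoc, map_smul, smul_eq_mul, cgt_thm (Fin m) A τ hτ x k a w]

/-- a linear functional of a substituted polynomial -/
theorem sbt {m : ℕ} {A : Type} [Ring A] [Algebra ℂ A] (τ : A →ₗ[ℂ] ℂ) (i : Fin m)
    (q H : List (Fin m) →₀ ℂ) (F : List (Fin m) → A) :
    ((sbp i q H).sum fun W r => r * τ (F W)) =
      H.sum fun w s => s * τ ((sb i q w).sum fun W r => r • F W) := by
  unfold sbp
  rw [Finsupp.sum_sum_index (fun _ => by simp) (fun _ _ _ => by rw [add_mul])]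
  refine Finsupp.sum_congr fun w _ => ?_
  rw [Finsupp.sum_smul_index (fun _ => by simp), map_finsuppSum, Finsupp.mul_sum]
  refine Finsupp.sum_congr fun W _ => ?_
  rw [map_smul, smul_eq_mul, mul_assoc]

end CDE55

open CDE55 in
theorem cde_thm (h1 : SUBStmt) : CDEStmt := by
  intro m A _ τ hτ0 x i p hp H a
  have hτ : ∀ a b, τ (a * b) = τ (b * a) := hτ0.comm
  have hp' : Lt ({i}ᶜ) (-p) := by
    intro w hw
    rw [Finsupp.support_neg] at hw
    exact hp w hw
  have hno : ∀ v ∈ p.support, ∀ j ∈ v, j ≠ i := fun v hv j hj => hp v hv j hj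
  have h4 : ∀ v ∈ p.support, ev (el x i p) v = ev x v ∧
      ∀ (k : Fin m) (a : A), dv (el x i p) k a v = dv x k a v := by
    intro v hv
    exact (h1 m A x i p hp []).2.2.2 v (hno v hv)
  have hpe : pe (el x i p) (-p) = - pe x p := by
    unfold pe
    rw [Finsupp.sum_neg_index (fun _ => by simp)]
    rw [← Finsupp.sum_neg]
    refine Finsupp.sum_congr fun v hv => ?_
    rw [neg_smul, (h4 v hv).1]
  have hback : el (el x i p) i (-p) = x := by
    show Function.update (el x i p) i (el x i p i + pe (el x i p) (-p)) = x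
    rw [hpe]
    have e1 : el x i p i = x i + pe x p := by simp [el]
    rw [e1, add_neg_cancel_right]
    unfold el
    rw [Function.update_idem, Function.update_eq_self]
  have hS := h1 m A (el x i p) i (-p) hp'
  rw [hback] at hS
  refine ⟨?_, ?_⟩
  · rw [cpt τ hτ, cpt τ hτ, sbt]
    refine Finsupp.sum_congr fun w _ => ?_
    rw [(hS w).2.1 a]
  · intro k hk
    have hD : ((-p).sum fun v r => r • dv (el x i p) k a v) = - p.sum fun v r => r • dv x k a v := by
      rw [Finsupp.sum_neg_index (fun _ => by simp), ← Finsupp.sum_neg]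
      refine Finsupp.sum_congr fun v hv => ?_
      rw [neg_smul, (h4 v hv).2]
    rw [cpt τ hτ, sbt]
    have e1 : (H.sum fun w s => s * τ ((sb i (-p) w).sum fun W r => r • dv (el x i p) k a W)) =
        τ (cp x k H * a) + τ (cp x i H * (- p.sum fun v r => r • dv x k a v)) := by
      rw [cpt τ hτ, cpt τ hτ, ← Finsupp.sum_add]
      refine Finsupp.sum_congr fun w _ => ?_
      rw [(hS w).2.2.1 k a hk, hD, map_add, mul_add]
    rw [e1, mul_neg, map_neg, ← sub_eq_add_neg]
    congr 1
    rw [Finsupp.mul_sum, map_finsuppSum]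
    refine Finsupp.sum_congr fun v _ => ?_
    rw [mul_smul_comm, map_smul, smul_eq_mul]
    congr 1
    unfold dv
    rw [Finset.mul_sum, map_sum]
    refine Finset.sum_congr rfl fun l _ => ?_
    split_ifs with h
    · rfl
    · simp

end Pool.TAM
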